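import Pool.Agent.H482R3.EA.Stm

set_option autoImplicit false

/-! Project EA (helper482), task UNI. -/

namespace Pool.Agent.H225R2.EA

open Pool.Agent.H482R3.EA

theorem t_UNI : S_UNI := by
  intro S s l q q' hIn hq hN hq' hN'
  cases s with
  | none => exact absurd hN (by simp [Near])
  | ln m =>
    have hlm : l ≠ m := fun h => hIn h
    exact S.G1 l m q q' hlm hq hq' hN hN'
  | pt r =>
    obtain ⟨m, hrm, hqm⟩ := hN
    obtain ⟨m', hrm', hqm'⟩ := hN'
    have hr : ¬ S.I r l := hIn
    have hlm : l ≠ m := fun h => hr (h ▸ hrm)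
    have hlm' : l ≠ m' := fun h => hr (h ▸ hrm')
    by_cases hmm : m = m'
    · subst hmm
      exact S.G1 l m q q' hlm hq hq' hqm hqm'
    · have h := S.G2 l m m' q r q' hlm hmm (Ne.symm hlm') hq hqm hrm hrm' hqm' hq'
      exact absurd (h ▸ hq) hr

end Pool.Agent.H225R2.EA
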